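import Pool.Agent.U708.EG.Pert

/-!
# Generic stationary laws have exactly one pair of ground states
-/

set_option autoImplicit false

open Finset MeasureTheory ProbabilityTheory Filter Topology

namespace Pool.Agent.U708.EG

open Pool.Agent.R239.EA Pool.Agent.U708.EA

variable {d : ℕ}

/-! ### Genericity of the perturbed couplings -/

lemma gauss_atomless (x : ℝ) : (gaussianReal 0 1) {x} = 0 := by
  have : NullSingletonClass (gaussianReal 0 1) := nullSingletonClass_gaussianReal one_ne_zero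
  exact measure_singleton x

lemma noise_null {η : ℝ} (hη : η ≠ 0) (J : (Fin d → ℤ) × Fin d → ℝ)
    {T1 T2 : Finset ((Fin d → ℤ) × Fin d)} (hd : Disjoint T1 T2) (he : ∃ e, e ∈ T1 ∨ e ∈ T2)
    {w : (Fin d → ℤ) × Fin d → ℝ} (hw : ∀ e, w e ≠ 0) :
    gam d {Z | ∑ e ∈ T1, w e * (J e + η * Z e) = ∑ e ∈ T2, w e * (J e + η * Z e)} = 0 := by
  classical
  obtain ⟨e0, he0⟩ := he
  have h1 := lin_null_const (gaussianReal 0 1) gauss_atomless (T1 ∪ T2)
    (fun e : (Fin d → ℤ) × Fin d => if e ∈ T1 then w e * η else -(w e * η)) (e0 := e0)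
    (Finset.mem_union.2 he0) (by
      have := mul_ne_zero (hw e0) hη
      split_ifs
      · exact this
      · exact neg_ne_zero.2 this) (∑ e ∈ T2, w e * J e - ∑ e ∈ T1, w e * J e)
  unfold gam Lw
  refine measure_mono_null ?_ h1
  intro Z hZ
  simp only [Set.mem_ofPred_eq] at hZ ⊢
  rw [Finset.sum_union hd]
  have h3 : ∑ e ∈ T1, Z e * (if e ∈ T1 then w e * η else -(w e * η)) =
      ∑ e ∈ T1, w e * (J e + η * Z e) - ∑ e ∈ T1, w e * J e := by
    rw [← Finset.sum_sub_distrib]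
    refine Finset.sum_congr rfl fun e he => ?_
    rw [if_pos he]; ring
  have h4 : ∑ e ∈ T2, Z e * (if e ∈ T1 then w e * η else -(w e * η)) =
      -(∑ e ∈ T2, w e * (J e + η * Z e) - ∑ e ∈ T2, w e * J e) := by
    rw [← Finset.sum_sub_distrib, ← Finset.sum_neg_distrib]
    refine Finset.sum_congr rfl fun e he => ?_
    rw [if_neg (fun h => (Finset.disjoint_left.1 hd) h he)]; ring
  rw [h3, h4, hZ]; ring

/-- the sets of couplings which are not generic -/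
def tie (T : Finset ((Fin d → ℤ) × Fin d) × Finset ((Fin d → ℤ) × Fin d)) :
    Set ((Fin d → ℤ) × Fin d → ℝ) := {K | ∑ e ∈ T.1, K e = ∑ e ∈ T.2, K e}

lemma closed_tie (T : Finset ((Fin d → ℤ) × Fin d) × Finset ((Fin d → ℤ) × Fin d)) :
    IsClosed (tie T) :=
  isClosed_eq (continuous_finsetSum _ fun e _ => continuous_apply e)
    (continuous_finsetSum _ fun e _ => continuous_apply e)

lemma wt_ne {j : ℕ} {δ : ℝ} (hδ : 0 < δ) (ω : Of d) (e : (Fin d → ℤ) × Fin d) :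
    wt j δ ω e ≠ 0 := by
  unfold wt
  split_ifs
  · exact hδ.ne'
  · exact one_ne_zero

lemma pert_tie (P : ProbabilityMeasure ((Fin d → ℤ) × Fin d → ℝ)) (j : ℕ) {δ η : ℝ} (hδ : 0 < δ)
    (hη : η ≠ 0) {T : Finset ((Fin d → ℤ) × Fin d) × Finset ((Fin d → ℤ) × Fin d)}
    (hd : Disjoint T.1 T.2) (he : ∃ e, e ∈ T.1 ∨ e ∈ T.2) :
    (pert P j δ η : Measure ((Fin d → ℤ) × Fin d → ℝ)) (tie T) = 0 := by
  have hm : MeasurableSet (tie T) := (closed_tie T).measurableSet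
  have hm2 := (kf_meas j δ η) hm
  rw [pert_apply, Measure.map_apply (kf_meas j δ η) hm]
  unfold Mj
  rw [Measure.measure_prod_null hm2]
  refine Eventually.of_forall fun ω => ?_
  have hm3 : MeasurableSet (Prod.mk ω ⁻¹' (kf j δ η ⁻¹' tie T)) := measurable_prodMk_left hm2
  show ((P : Measure ((Fin d → ℤ) × Fin d → ℝ)).prod (gam d))
    (Prod.mk ω ⁻¹' (kf j δ η ⁻¹' tie T)) = 0
  rw [Measure.measure_prod_null hm3]
  refine Eventually.of_forall fun J => ?_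
  exact noise_null hη J hd he (w := wt j δ ω) (wt_ne hδ ω)

/-! ### Cells -/

lemma insC_coord {c : Fin d → ℤ} {n : ℕ} {e : (Fin d → ℤ) × Fin d} (h : e ∈ insC c n) :
    c e.2 - n ≤ e.1 e.2 ∧ e.1 e.2 + 1 ≤ c e.2 + n := by
  rw [mem_insC, mem_bx', mem_bx'] at h
  have h1 := h.1 e.2
  have h2 := h.2 e.2
  unfold nx at h2
  rw [Pi.add_apply, u_same] at h2
  rw [abs_le] at h1 h2
  constructor <;> omega

lemma crC_coord {c : Fin d → ℤ} {n : ℕ} {e : (Fin d → ℤ) × Fin d} (h : e ∈ crC c n) :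
    e.1 e.2 = c e.2 + n ∨ e.1 e.2 = c e.2 - n - 1 := by
  rw [mem_crC, mem_bx', mem_bx'] at h
  have hn : ∀ j, j ≠ e.2 → nx e j = e.1 j := by
    intro j hj
    unfold nx
    rw [Pi.add_apply, u_ne hj, add_zero]
  have hs : nx e e.2 = e.1 e.2 + 1 := by
    unfold nx
    rw [Pi.add_apply, u_same]
  by_cases h1 : |e.1 e.2 - c e.2| ≤ (n : ℤ)
  · by_cases h2 : |nx e e.2 - c e.2| ≤ (n : ℤ)
    · exfalso
      apply h
      constructor
      · intro h3 i
        by_cases hi : i = e.2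
        · rw [hi]; exact h2
        · rw [hn i hi]; exact h3 i
      · intro h3 i
        by_cases hi : i = e.2
        · rw [hi]; exact h1
        · rw [← hn i hi]; exact h3 i
    · left
      rw [hs] at h2
      rw [abs_le] at h1 h2
      omega
  · by_cases h2 : |nx e e.2 - c e.2| ≤ (n : ℤ)
    · right
      rw [hs] at h2
      rw [abs_le] at h1 h2
      omega
    · exfalso
      apply h
      constructor
      · intro h3; exact absurd (h3 e.2) h1
      · intro h3; exact absurd (h3 e.2) h2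

/-- the centre of the cell which contains `0` -/
def ctr (j : ℕ) (ω : Of d) (i : Fin d) : ℤ := ((-ω (j, i)).val : ℤ) - 2 ^ j

lemma ctr_mem (j : ℕ) (ω : Of d) : ctr j ω ∈ bx (0 : Fin d → ℤ) (2 ^ j) := by
  rw [mem_bx']
  intro i
  have h1 := ZMod.val_lt (-ω (j, i))
  unfold sd at h1
  unfold ctr
  rw [Pi.zero_apply, sub_zero, abs_le]
  push_cast
  have h2 : (((-ω (j, i)).val : ℕ) : ℤ) < 2 * 2 ^ j + 1 := by exact_mod_cast h1
  have h3 : (0 : ℤ) ≤ ((-ω (j, i)).val : ℕ) := Nat.cast_nonneg _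
  constructor <;> linarith

lemma ctr_cast (j : ℕ) (ω : Of d) (i : Fin d) :
    ω (j, i) + (((ctr j ω i + 2 ^ j : ℤ)) : ZMod (sd j)) = 0 := by
  unfold ctr
  rw [sub_add_cancel, Int.cast_natCast, ZMod.natCast_zmod_val, add_neg_cancel]

lemma wt_cr {j : ℕ} {δ : ℝ} {ω : Of d} {e : (Fin d → ℤ) × Fin d}
    (h : e ∈ crC (ctr j ω) (2 ^ j)) : wt j δ ω e = δ := by
  unfold wt
  rw [if_pos]
  have h1 := ctr_cast j ω e.2
  rcases crC_coord h with h2 | h2
  · rw [h2]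
    push_cast at h1 ⊢
    exact h1
  · rw [h2]
    have h3 : ((2 * 2 ^ j + 1 : ℕ) : ZMod (sd j)) = 0 := ZMod.natCast_self (sd j)
    push_cast at h1 h3 ⊢
    have h4 : ω (j, e.2) + ((ctr j ω e.2 : ZMod (sd j)) - 2 ^ j - 1) =
        (ω (j, e.2) + ((ctr j ω e.2 : ZMod (sd j)) + 2 ^ j)) - (2 * 2 ^ j + 1) := by ring
    rw [h4, h1, h3, sub_zero]

lemma wt_ins {j : ℕ} {δ : ℝ} {ω : Of d} {e : (Fin d → ℤ) × Fin d}
    (h : e ∈ insC (ctr j ω) (2 ^ j)) : wt j δ ω e = 1 := by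
  unfold wt
  rw [if_neg]
  intro hc
  have h1 := ctr_cast j ω e.2
  have h2 := insC_coord h
  push_cast at h2
  have h3 : (((ctr j ω e.2 + 2 ^ j) - e.1 e.2 : ℤ) : ZMod (sd j)) = 0 := by
    rw [Int.cast_sub]
    have : (((ctr j ω e.2 + 2 ^ j : ℤ)) : ZMod (sd j)) - ((e.1 e.2 : ℤ) : ZMod (sd j)) =
        (ω (j, e.2) + (((ctr j ω e.2 + 2 ^ j : ℤ)) : ZMod (sd j))) -
          (ω (j, e.2) + ((e.1 e.2 : ℤ) : ZMod (sd j))) := by ring
    rw [this, h1, hc, sub_zero]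
  rw [ZMod.intCast_zmod_eq_zero_iff_dvd] at h3
  have h4 : (0 : ℤ) < (ctr j ω e.2 + 2 ^ j) - e.1 e.2 := by linarith [h2.2]
  have h5 := Int.le_of_dvd h4 h3
  unfold sd at h5
  push_cast at h5
  linarith [h2.1]

/-- the condition that `δ` is small enough -/
def Bad (j : ℕ) (δ η : ℝ) :
    Set (((Fin d → ℤ) × Fin d → ℝ) × ((Fin d → ℤ) × Fin d → ℝ)) :=
  {p | ∃ c ∈ bx (0 : Fin d → ℤ) (2 ^ j), ∃ T1 ∈ (insC c (2 ^ j)).powerset,
    ∃ T2 ∈ (insC c (2 ^ j)).powerset, Disjoint T1 T2 ∧ (∃ e, e ∈ T1 ∨ e ∈ T2) ∧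
      |∑ e ∈ T1, (p.1 e + η * p.2 e) - ∑ e ∈ T2, (p.1 e + η * p.2 e)| <
        δ * (∑ e ∈ crC c (2 ^ j), |p.1 e + η * p.2 e| + 1)}

lemma exists_small (P : Measure ((Fin d → ℤ) × Fin d → ℝ)) [IsProbabilityMeasure P] (j : ℕ)
    {η : ℝ} (hη : η ≠ 0) {ε : ENNReal} (hε : 0 < ε) :
    ∃ δ : ℝ, 0 < δ ∧ δ ≤ 1 ∧ (P.prod (gam d)) (Bad j δ η) ≤ ε := by
  classical
  set S : Finset ((Fin d → ℤ) × (Finset ((Fin d → ℤ) × Fin d) × Finset ((Fin d → ℤ) × Fin d))) :=
    (bx (0 : Fin d → ℤ) (2 ^ j)).biUnion fun c =>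
      (((insC c (2 ^ j)).powerset ×ˢ (insC c (2 ^ j)).powerset).filter
        fun T => Disjoint T.1 T.2 ∧ ∃ e, e ∈ T.1 ∨ e ∈ T.2).image fun T => (c, T) with hS
  have hSmem : ∀ c T, (c, T) ∈ S ↔ c ∈ bx (0 : Fin d → ℤ) (2 ^ j) ∧
      (T.1 ∈ (insC c (2 ^ j)).powerset ∧ T.2 ∈ (insC c (2 ^ j)).powerset) ∧
        Disjoint T.1 T.2 ∧ ∃ e, e ∈ T.1 ∨ e ∈ T.2 := by
    intro c T
    rw [hS, Finset.mem_biUnion]
    constructor
    · rintro ⟨c', hc', hT⟩
      rw [Finset.mem_image] at hT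
      obtain ⟨T', hT', heq⟩ := hT
      rw [Prod.mk.injEq] at heq
      obtain ⟨rfl, rfl⟩ := heq
      rw [Finset.mem_filter, Finset.mem_product] at hT'
      exact ⟨hc', hT'⟩
    · rintro ⟨hc, hT⟩
      refine ⟨c, hc, ?_⟩
      rw [Finset.mem_image]
      exact ⟨T, by rw [Finset.mem_filter, Finset.mem_product]; exact hT, rfl⟩
  set Bf : (((Fin d → ℤ) × Fin d → ℝ) × ((Fin d → ℤ) × Fin d → ℝ)) → ℝ := fun p =>
    ∑ c ∈ bx (0 : Fin d → ℤ) (2 ^ j), (∑ e ∈ crC c (2 ^ j), |p.1 e + η * p.2 e| + 1) with hBf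
  have hterm : ∀ c p, 0 ≤ ∑ e ∈ crC c (2 ^ j), |(p : ((Fin d → ℤ) × Fin d → ℝ) ×
      ((Fin d → ℤ) × Fin d → ℝ)).1 e + η * p.2 e| + 1 := fun c p => by positivity
  obtain ⟨δ, h1, h2, h3⟩ := pick_fin (P.prod (gam d)) (B := Bf) (by simp only [hBf]; fun_prop)
    (fun p => Finset.sum_nonneg fun c _ => hterm c p)
    (fun (T : (Fin d → ℤ) × (Finset ((Fin d → ℤ) × Fin d) × Finset ((Fin d → ℤ) × Fin d))) p =>
      ∑ e ∈ T.2.1, (p.1 e + η * p.2 e) - ∑ e ∈ T.2.2, (p.1 e + η * p.2 e))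
    (fun T => by fun_prop) S
    (fun T hT => by
      obtain ⟨c, T⟩ := T
      rw [hSmem] at hT
      have hm : MeasurableSet {p : ((Fin d → ℤ) × Fin d → ℝ) × ((Fin d → ℤ) × Fin d → ℝ) |
          ∑ e ∈ T.1, (p.1 e + η * p.2 e) = ∑ e ∈ T.2, (p.1 e + η * p.2 e)} :=
        measurableSet_eq_fun (by fun_prop) (by fun_prop)
      have h0 : (P.prod (gam d)) {p | ∑ e ∈ T.1, (p.1 e + η * p.2 e) =
          ∑ e ∈ T.2, (p.1 e + η * p.2 e)} = 0 := by
        rw [Measure.measure_prod_null hm]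
        refine Eventually.of_forall fun J => ?_
        have := noise_null hη J hT.2.2.1 hT.2.2.2 (w := fun _ => 1) (fun _ => one_ne_zero)
        simp only [one_mul] at this
        exact this
      rw [ae_iff]
      refine measure_mono_null ?_ h0
      intro p hp
      simp only [Set.mem_ofPred_eq, not_not, ne_eq] at hp ⊢
      exact sub_eq_zero.1 hp) ε hε
  refine ⟨δ, h1, h2, (measure_mono ?_).trans h3⟩
  rintro p ⟨c, hc, T1, hT1, T2, hT2, hdis, hex, hlt⟩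
  refine ⟨(c, (T1, T2)), (hSmem c (T1, T2)).2 ⟨hc, ⟨hT1, hT2⟩, hdis, hex⟩, hlt.trans_le ?_⟩
  refine mul_le_mul_of_nonneg_left ?_ h1.le
  exact Finset.single_le_sum (f := fun c => ∑ e ∈ crC c (2 ^ j), |p.1 e + η * p.2 e| + 1)
    (fun c _ => hterm c p) hc

/-- no influence at `0` in isolated cells -/
lemma not_CC {j : ℕ} {δ η : ℝ} (hδ : 0 < δ)
    {q : Of d × (((Fin d → ℤ) × Fin d → ℝ) × ((Fin d → ℤ) × Fin d → ℝ))}
    (h1 : ∀ i, q.1 (j, i) ≠ 0) (h2 : q.2 ∉ Bad j δ η) : kf j δ η q ∉ CC d (2 * 2 ^ j) := by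
  rintro ⟨σ, τ, hσ, hτ, i, hi⟩
  have hc := ctr_mem j q.1
  have hcn := mem_bx.1 hc
  rw [sub_zero] at hcn
  have hsub : bx (ctr j q.1) (2 ^ j) ⊆ bx (0 : Fin d → ℤ) (2 * 2 ^ j) := by
    apply bx_sub
    rw [sub_zero]
    omega
  have hiso : IsoC (ctr j q.1) (2 ^ j) (kf j δ η q) := by
    intro T1 hT1 T2 hT2 hdis hex
    by_contra hcon
    push Not at hcon
    apply h2
    refine ⟨_, hc, T1, hT1, T2, hT2, hdis, hex, ?_⟩
    have e1 : ∀ T ∈ (insC (ctr j q.1) (2 ^ j)).powerset, ∑ e ∈ T, kf j δ η q e =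
        ∑ e ∈ T, (q.2.1 e + η * q.2.2 e) := by
      intro T hT
      refine Finset.sum_congr rfl fun e he => ?_
      unfold kf
      rw [wt_ins (Finset.mem_powerset.1 hT he), one_mul]
    have e2 : ∑ e ∈ crC (ctr j q.1) (2 ^ j), |kf j δ η q e| =
        δ * ∑ e ∈ crC (ctr j q.1) (2 ^ j), |q.2.1 e + η * q.2.2 e| := by
      rw [Finset.mul_sum]
      refine Finset.sum_congr rfl fun e he => ?_
      unfold kf
      rw [wt_cr he, abs_mul, abs_of_pos hδ]
    rw [e1 T1 hT1, e1 T2 hT2, e2] at hcon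
    refine lt_of_le_of_lt hcon ?_
    rw [mul_add, mul_one]
    linarith
  refine iso_agreeC hsub hσ hτ hiso ?_ hi
  rw [mem_insC]
  rw [mem_bx'] at hc
  constructor
  · rw [mem_bx']
    intro k
    have := hc k
    rw [Pi.zero_apply, sub_zero] at this
    show |(0 : Fin d → ℤ) k - ctr j q.1 k| ≤ _
    rw [Pi.zero_apply, zero_sub, abs_neg]
    exact this
  · rw [mem_bx']
    intro k
    have h3 := hc k
    rw [Pi.zero_apply, sub_zero] at h3
    show |(0 : Fin d → ℤ) k + u i k - ctr j q.1 k| ≤ _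
    rw [Pi.zero_apply, zero_add]
    by_cases hk : k = i
    · subst hk
      rw [u_same]
      have h4 : (-q.1 (j, k)).val ≠ 0 := by
        intro h0
        rw [ZMod.val_eq_zero, neg_eq_zero] at h0
        exact h1 k h0
      have h5 : ctr j q.1 k = ((-q.1 (j, k)).val : ℤ) - 2 ^ j := rfl
      have h6 : (1 : ℤ) ≤ ((-q.1 (j, k)).val : ℕ) := by exact_mod_cast Nat.one_le_iff_ne_zero.2 h4
      rw [abs_le] at h3 ⊢
      push_cast at h3 ⊢
      constructor <;> linarith [h3.1, h3.2]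
    · rw [u_ne hk, zero_sub, abs_neg]
      exact h3

lemma pert_CC (P : ProbabilityMeasure ((Fin d → ℤ) × Fin d → ℝ)) (j : ℕ) {δ η : ℝ} (hδ : 0 < δ)
    {ε : ENNReal} (h : ((P : Measure ((Fin d → ℤ) × Fin d → ℝ)).prod (gam d)) (Bad j δ η) ≤ ε) :
    (pert P j δ η : Measure ((Fin d → ℤ) × Fin d → ℝ)) (CC d (2 * 2 ^ j)) ≤
      d * (1 / (sd j : ENNReal)) + ε := by
  rw [pert_apply, Measure.map_apply (kf_meas j δ η) (closed_CC _).measurableSet]
  have h1 : kf j δ η ⁻¹' CC d (2 * 2 ^ j) ⊆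
      (⋃ i : Fin d, {q | q.1 (j, i) = 0}) ∪ Prod.snd ⁻¹' (Bad j δ η) := by
    intro q hq
    by_contra hc
    rw [Set.mem_union, not_or, Set.mem_iUnion, not_exists] at hc
    exact not_CC hδ (fun i hi => hc.1 i hi) hc.2 hq
  refine (measure_mono h1).trans ((measure_union_le _ _).trans (add_le_add ?_ ?_))
  · refine (measure_iUnion_fintype_le _ _).trans ?_
    simp only [Mj_fst]
    rw [Finset.sum_const, Finset.card_univ, Fintype.card_fin, nsmul_eq_mul]
  · refine le_trans ?_ h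
    have h2 : MeasurePreserving (Prod.snd : Of d × (((Fin d → ℤ) × Fin d → ℝ) ×
        ((Fin d → ℤ) × Fin d → ℝ)) → _) (Mj (P : Measure ((Fin d → ℤ) × Fin d → ℝ)))
        ((P : Measure ((Fin d → ℤ) × Fin d → ℝ)).prod (gam d)) := measurePreserving_snd
    exact h2.measure_preimage_le _

lemma bound_tendsto : Tendsto (fun j : ℕ => (d : ENNReal) * (1 / (sd j : ENNReal)) +
    (1 / 2 : ENNReal) ^ j) atTop (𝓝 0) := by
  have h1 : Tendsto (fun j : ℕ => (1 / (sd j : ENNReal))) atTop (𝓝 0) :=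
    ENNReal.tendsto_atTop_zero_of_tsum_ne_top sd_summable
  have h2 : Tendsto (fun j : ℕ => (1 / 2 : ENNReal) ^ j) atTop (𝓝 0) := by
    apply ENNReal.tendsto_pow_atTop_nhds_zero_of_lt_one
    rw [one_div]
    exact ENNReal.inv_lt_one.2 (by norm_num)
  have h3 := ENNReal.Tendsto.const_mul h1 (Or.inr (ENNReal.natCast_ne_top d))
  have h4 := h3.add h2
  rw [mul_zero, add_zero] at h4
  exact h4

/-! ### The theorem -/

/-- the laws of the class `S` with almost surely exactly one pair -/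
theorem generic (hd : 2 ≤ d) (S : ProbabilityMeasure ((Fin d → ℤ) × Fin d → ℝ) → Prop)
    (hS : ∀ P, S P → ∀ x : Fin d → ℤ,
      (P : Measure ((Fin d → ℤ) × Fin d → ℝ)).map (shw x) = P)
    (hpert : ∀ P, S P → ∀ j δ η, S (pert P j δ η)) :
    {P : {P // S P} | ∀ᵐ K ∂(P.1 : Measure ((Fin d → ℤ) × Fin d → ℝ)),
      ∃ σ, GA K σ ∧ ∀ τ, GA K τ → τ = σ ∨ τ = -σ} ∈ residual {P // S P} := by
  classical
  -- approximation
  have happ : ∀ P : {P // S P}, ∃ Q : ℕ → {P // S P}, Tendsto Q atTop (𝓝 P) ∧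
      (∀ j T, Disjoint T.1 T.2 → (∃ e, e ∈ T.1 ∨ e ∈ T.2) →
        ((Q j).1 : Measure ((Fin d → ℤ) × Fin d → ℝ)) (tie T) = 0) ∧
      ∀ j, ((Q j).1 : Measure ((Fin d → ℤ) × Fin d → ℝ)) (CC d (2 * 2 ^ j)) ≤
        d * (1 / (sd j : ENNReal)) + (1 / 2 : ENNReal) ^ j := by
    intro P
    have hη : ∀ j : ℕ, (1 / ((j : ℝ) + 1)) ≠ 0 := fun j => by positivity
    choose δ h1 h2 h3 using fun j : ℕ => exists_small
      (P.1 : Measure ((Fin d → ℤ) × Fin d → ℝ)) j (hη j) (ε := (1 / 2 : ENNReal) ^ j)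
      (ENNReal.pow_pos (by simp) j)
    refine ⟨fun j => ⟨pert P.1 j (δ j) (1 / ((j : ℝ) + 1)), hpert _ P.2 _ _ _⟩, ?_, ?_, ?_⟩
    · rw [tendsto_subtype_rng]
      exact pert_tendsto P.1 δ
    · intro j T hdis hex
      exact pert_tie P.1 j (h1 j) (hη j) hdis hex
    · intro j
      exact pert_CC P.1 j (h1 j) (h3 j)
  -- open dense sets
  have hU : ∀ m : ℕ, {P : {P // S P} | ∃ n, (P.1 : Measure ((Fin d → ℤ) × Fin d → ℝ)) (CC d n) <
      (1 / 2 : ENNReal) ^ m} ∈ residual {P // S P} := by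
    intro m
    have hpos : (0 : ENNReal) < (1 / 2 : ENNReal) ^ m := ENNReal.pow_pos (by simp) m
    refine residual_of_dense_open ?_ ?_
    · have : {P : {P // S P} | ∃ n, (P.1 : Measure ((Fin d → ℤ) × Fin d → ℝ)) (CC d n) <
          (1 / 2 : ENNReal) ^ m} = ⋃ n, Subtype.val ⁻¹' {P : ProbabilityMeasure _ |
            (P : Measure ((Fin d → ℤ) × Fin d → ℝ)) (CC d n) < (1 / 2 : ENNReal) ^ m} := by
        ext P; simp
      rw [this]
      exact isOpen_iUnion fun n => (isOpen_lt (closed_CC n) _).preimage continuous_subtype_val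
    · intro P
      obtain ⟨Q, h1, -, h3⟩ := happ P
      refine mem_closure_of_tendsto h1 ?_
      filter_upwards [(tendsto_order.1 (bound_tendsto (d := d))).2 _ hpos] with j hj
      exact ⟨2 * 2 ^ j, lt_of_le_of_lt (h3 j) hj⟩
  have hV : ∀ T : Finset ((Fin d → ℤ) × Fin d) × Finset ((Fin d → ℤ) × Fin d), ∀ m : ℕ,
      {P : {P // S P} | Disjoint T.1 T.2 → (∃ e, e ∈ T.1 ∨ e ∈ T.2) →
        (P.1 : Measure ((Fin d → ℤ) × Fin d → ℝ)) (tie T) < (1 / 2 : ENNReal) ^ m} ∈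
        residual {P // S P} := by
    intro T m
    have hpos : (0 : ENNReal) < (1 / 2 : ENNReal) ^ m := ENNReal.pow_pos (by simp) m
    by_cases hT : Disjoint T.1 T.2 ∧ ∃ e, e ∈ T.1 ∨ e ∈ T.2
    · have h0 : {P : {P // S P} | (P.1 : Measure ((Fin d → ℤ) × Fin d → ℝ)) (tie T) <
          (1 / 2 : ENNReal) ^ m} ∈ residual {P // S P} := by
        refine residual_of_dense_open ?_ ?_
        · exact (isOpen_lt (closed_tie T) _).preimage continuous_subtype_val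
        · intro P
          obtain ⟨Q, h1, h2, -⟩ := happ P
          refine mem_closure_of_tendsto h1 (Eventually.of_forall fun j => ?_)
          show ((Q j).1 : Measure ((Fin d → ℤ) × Fin d → ℝ)) (tie T) < (1 / 2 : ENNReal) ^ m
          rw [h2 j T hT.1 hT.2]
          exact hpos
      exact Filter.mem_of_superset h0 fun P hP _ _ => hP
    · exact Filter.mem_of_superset Filter.univ_mem fun P _ h1 h2 => absurd ⟨h1, h2⟩ hT
  have hW := (countable_iInter_mem.2 hU)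
  have hX := (countable_iInter_mem.2 fun T => countable_iInter_mem.2 (hV T))
  refine Filter.mem_of_superset (Filter.inter_mem hW hX) ?_
  rintro P ⟨h1, h2⟩
  rw [Set.mem_iInter] at h1 h2
  have hgn : ∀ᵐ K ∂(P.1 : Measure ((Fin d → ℤ) × Fin d → ℝ)), Gn K := by
    unfold Gn
    rw [ae_all_iff]; intro T1
    rw [ae_all_iff]; intro T2
    by_cases hT : Disjoint T1 T2 ∧ ∃ e, e ∈ T1 ∨ e ∈ T2
    · have h3 : (P.1 : Measure ((Fin d → ℤ) × Fin d → ℝ)) (tie (T1, T2)) = 0 := by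
        have h4 := h2 (T1, T2)
        rw [Set.mem_iInter] at h4
        refine le_antisymm ?_ bot_le
        refine le_of_tendsto_of_tendsto tendsto_const_nhds
          (ENNReal.tendsto_pow_atTop_nhds_zero_of_lt_one (r := (1 / 2 : ENNReal)) ?_)
          (Eventually.of_forall fun m => (h4 m hT.1 hT.2).le)
        rw [one_div]
        exact ENNReal.inv_lt_one.2 (by norm_num)
      rw [ae_iff]
      refine measure_mono_null ?_ h3
      intro K hK
      simp only [Set.mem_ofPred_eq, Classical.not_imp, ne_eq, not_not] at hK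
      exact hK.2.2
    · exact Eventually.of_forall fun K a b => absurd ⟨a, b⟩ hT
  have h0 : (P.1 : Measure ((Fin d → ℤ) × Fin d → ℝ)) (⋂ n, CC d n) = 0 := by
    refine le_antisymm ?_ bot_le
    refine le_of_tendsto_of_tendsto tendsto_const_nhds
      (ENNReal.tendsto_pow_atTop_nhds_zero_of_lt_one (r := (1 / 2 : ENNReal)) ?_)
      (Eventually.of_forall fun m => ?_)
    · rw [one_div]
      exact ENNReal.inv_lt_one.2 (by norm_num)
    · obtain ⟨n, hn⟩ := h1 m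
      exact (measure_mono (Set.iInter_subset _ n)).trans hn.le
  have hall : ∀ᵐ K ∂(P.1 : Measure ((Fin d → ℤ) × Fin d → ℝ)),
      ∀ x : Fin d → ℤ, ∃ n, shw x K ∉ CC d n := by
    rw [ae_all_iff]
    intro x
    have hx : MeasurePreserving (shw x) (P.1 : Measure ((Fin d → ℤ) × Fin d → ℝ)) P.1 :=
      ⟨shw_meas x, hS P.1 P.2 x⟩
    have h3 := hx.quasiMeasurePreserving.preimage_null h0
    rw [ae_iff]
    refine measure_mono_null ?_ h3
    intro K hK
    rw [Set.mem_preimage, Set.mem_iInter]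
    intro n
    by_contra hc
    exact hK ⟨n, hc⟩
  show ∀ᵐ K ∂(P.1 : Measure ((Fin d → ℤ) × Fin d → ℝ)),
      ∃ σ, GA K σ ∧ ∀ τ, GA K τ → τ = σ ∨ τ = -σ
  filter_upwards [hgn, hall] with K h3 h4
  exact unique_of hd h3 h4

end Pool.Agent.U708.EG
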