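import Pool.Agent.U708.EG.Weak

/-!
# Stationary perturbations with weakly coupled cells
-/

set_option autoImplicit false

open Finset MeasureTheory ProbabilityTheory Filter Topology

namespace Pool.Agent.U708.EG

open Pool.Agent.R239.EA Pool.Agent.U708.EA

variable {d : ℕ}

/-! ### Genericity with a constant -/

lemma lin_null_const (ν : Measure ℝ) [IsProbabilityMeasure ν] (hat : ∀ x, ν {x} = 0) {E : Type}
    (T : Finset E) (k : E → ℝ) {e0 : E} (he0 : e0 ∈ T) (hk : k e0 ≠ 0) (a : ℝ) :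
    (Measure.infinitePi fun _ : E => ν) {J : E → ℝ | ∑ e ∈ T, J e * k e = a} = 0 := by
  classical
  set P := Measure.infinitePi fun _ : E => ν with hP
  set X : (E → ℝ) → ℝ := fun J => ∑ e ∈ T.erase e0, J e * k e with hX
  set Y : (E → ℝ) → ℝ := fun J => J e0 * k e0 with hY
  have hXm : Measurable X := by simp only [hX]; fun_prop
  have hYm : Measurable Y := by simp only [hY]; fun_prop
  have hind : IndepFun X Y P := by
    have h1 : iIndepFun (fun (e : E) (J : E → ℝ) => J e * k e) P :=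
      iIndepFun_infinitePi (P := fun _ : E => ν) (X := fun e (x : ℝ) => x * k e)
        (fun e => by fun_prop)
    have h2 := h1.indepFun_finsetSum_of_notMem (fun e => by fun_prop)
      (s := T.erase e0) (i := e0) (by simp)
    convert h2 using 1
    funext J
    simp [hX]
  have hset : {J : E → ℝ | ∑ e ∈ T, J e * k e = a} =
      (fun J => (X J, Y J)) ⁻¹' {p : ℝ × ℝ | p.1 + p.2 = a} := by
    ext J
    simp only [Set.mem_ofPred_eq, Set.mem_preimage, hX, hY]
    rw [Finset.sum_erase_add _ _ he0]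
  have hms : MeasurableSet {p : ℝ × ℝ | p.1 + p.2 = a} :=
    measurableSet_eq_fun (by fun_prop) measurable_const
  rw [hset, ← Measure.map_apply (hXm.prodMk hYm) hms,
    (indepFun_iff_map_prod_eq_prod_map_map hXm.aemeasurable hYm.aemeasurable).1 hind]
  have : IsProbabilityMeasure (P.map Y) := Measure.isProbabilityMeasure_map hYm.aemeasurable
  have : IsProbabilityMeasure (P.map X) := Measure.isProbabilityMeasure_map hXm.aemeasurable
  rw [Measure.prod_apply hms, lintegral_eq_zero_iff (measurable_measure_prodMk_left hms)]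
  refine Filter.Eventually.of_forall fun x => ?_
  have h3 : Prod.mk x ⁻¹' {p : ℝ × ℝ | p.1 + p.2 = a} = {a - x} := by
    ext y
    simp only [Set.mem_preimage, Set.mem_ofPred_eq, Set.mem_singleton_iff]
    constructor <;> intro h <;> linarith
  change (Measure.map Y P) (Prod.mk x ⁻¹' {p : ℝ × ℝ | p.1 + p.2 = a}) = 0
  rw [h3, Measure.map_apply hYm (measurableSet_singleton _)]
  have h4 : Y ⁻¹' {a - x} = (fun J : E → ℝ => J e0) ⁻¹' {(a - x) / k e0} := by
    ext J
    simp only [hY, Set.mem_preimage, Set.mem_singleton_iff]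
    rw [eq_div_iff hk]
  rw [h4, ← Measure.map_apply (measurable_pi_apply e0) (measurableSet_singleton _)]
  have h5 : P.map (fun J : E → ℝ => J e0) = ν := by
    rw [hP]; exact Measure.infinitePi_map_eval (fun _ : E => ν) e0
  rw [h5]
  exact hat _

/-! ### Random offsets -/

/-- the side of the cells -/
abbrev sd (j : ℕ) : ℕ := 2 * 2 ^ j + 1

/-- offsets -/
abbrev Of (d : ℕ) : Type := (p : ℕ × Fin d) → ZMod (sd p.1)

instance (j : ℕ) : NeZero (sd j) := ⟨by unfold sd; omega⟩

/-- uniform independent offsets -/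
noncomputable def lam (d : ℕ) : Measure (Of d) :=
  Measure.infinitePi fun p : ℕ × Fin d => uniformOn (Set.univ : Set (ZMod (sd p.1)))

instance : IsProbabilityMeasure (lam d) := by unfold lam; infer_instance

/-- translation of the offsets -/
def shO (x : Fin d → ℤ) (ω : Of d) : Of d := fun p => ω p + ((x p.2 : ℤ) : ZMod (sd p.1))

lemma unif_shift (j : ℕ) (a : ZMod (sd j)) :
    (uniformOn (Set.univ : Set (ZMod (sd j)))).map (fun b => b + a) = uniformOn Set.univ := by
  ext s hs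
  rw [Measure.map_apply Measurable.of_discrete hs, uniformOn_univ, uniformOn_univ]
  congr 1
  rw [Measure.count_apply (by exact MeasurableSet.of_discrete), Measure.count_apply hs]
  congr 1
  exact Set.encard_preimage_of_bijective (Equiv.addRight a).bijective s

lemma shO_law (x : Fin d → ℤ) : MeasurePreserving (shO x) (lam d) (lam d) := by
  have h1 := Measure.infinitePi_map_pi
    (μ := fun p : ℕ × Fin d => uniformOn (Set.univ : Set (ZMod (sd p.1))))
    (f := fun (p : ℕ × Fin d) (b : ZMod (sd p.1)) => b + ((x p.2 : ℤ) : ZMod (sd p.1)))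
    (fun p => Measurable.of_discrete)
  refine ⟨measurable_pi_lambda _ fun p => ?_, ?_⟩
  · exact (Measurable.of_discrete (f := fun b : ZMod (sd p.1) =>
      b + ((x p.2 : ℤ) : ZMod (sd p.1)))).comp (measurable_pi_apply p)
  · unfold lam
    simp only [unif_shift] at h1
    exact h1

lemma lam_eq (j : ℕ) (i : Fin d) (a : ZMod (sd j)) :
    lam d {ω | ω (j, i) = a} = 1 / (sd j : ENNReal) := by
  have h1 := measurePreserving_eval_infinitePi
    (fun p : ℕ × Fin d => uniformOn (Set.univ : Set (ZMod (sd p.1)))) (j, i)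
  have h2 := h1.measure_preimage (s := ({a} : Set (ZMod (sd j))))
    (MeasurableSet.of_discrete).nullMeasurableSet
  have h3 : Function.eval (j, i) ⁻¹' ({a} : Set (ZMod (sd j))) = {ω : Of d | ω (j, i) = a} := by
    ext ω; simp
  rw [h3] at h2
  unfold lam
  rw [h2, uniformOn_univ]
  simp [ZMod.card]

/-- weights: `δ` on the bonds between the cells -/
noncomputable def wt (j : ℕ) (δ : ℝ) (ω : Of d) (e : (Fin d → ℤ) × Fin d) : ℝ :=
  if ω (j, e.2) + ((e.1 e.2 : ℤ) : ZMod (sd j)) = 0 then δ else 1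

/-- the perturbed couplings -/
noncomputable def kf (j : ℕ) (δ η : ℝ)
    (q : Of d × (((Fin d → ℤ) × Fin d → ℝ) × ((Fin d → ℤ) × Fin d → ℝ))) :
    (Fin d → ℤ) × Fin d → ℝ :=
  fun e => wt j δ q.1 e * (q.2.1 e + η * q.2.2 e)

lemma wt_meas (j : ℕ) (δ : ℝ) (e : (Fin d → ℤ) × Fin d) :
    Measurable fun ω : Of d => wt j δ ω e := by
  have h1 : Measurable fun b : ZMod (sd j) =>
      (if b + ((e.1 e.2 : ℤ) : ZMod (sd j)) = 0 then δ else 1 : ℝ) := Measurable.of_discrete
  exact h1.comp (measurable_pi_apply (j, e.2))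

lemma kf_meas (j : ℕ) (δ η : ℝ) : Measurable (kf (d := d) j δ η) := by
  refine measurable_pi_lambda _ fun e => ?_
  unfold kf
  have h1 := (wt_meas j δ e).comp (measurable_fst : Measurable (Prod.fst :
    Of d × (((Fin d → ℤ) × Fin d → ℝ) × ((Fin d → ℤ) × Fin d → ℝ)) → Of d))
  refine h1.mul ?_
  fun_prop

/-- the noise -/
noncomputable def gam (d : ℕ) : Measure ((Fin d → ℤ) × Fin d → ℝ) := Lw (gaussianReal 0 1) d

instance : IsProbabilityMeasure (gam d) := by unfold gam; infer_instance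

/-- the joint law -/
noncomputable def Mj (P : Measure ((Fin d → ℤ) × Fin d → ℝ)) :
    Measure (Of d × (((Fin d → ℤ) × Fin d → ℝ) × ((Fin d → ℤ) × Fin d → ℝ))) :=
  (lam d).prod (P.prod (gam d))

instance (P : Measure ((Fin d → ℤ) × Fin d → ℝ)) [IsProbabilityMeasure P] :
    IsProbabilityMeasure (Mj P) := by unfold Mj; infer_instance

/-- the perturbed law -/
noncomputable def pert (P : ProbabilityMeasure ((Fin d → ℤ) × Fin d → ℝ)) (j : ℕ) (δ η : ℝ) :
    ProbabilityMeasure ((Fin d → ℤ) × Fin d → ℝ) :=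
  ⟨(Mj (P : Measure ((Fin d → ℤ) × Fin d → ℝ))).map (kf j δ η),
    Measure.isProbabilityMeasure_map (kf_meas j δ η).aemeasurable⟩

lemma pert_apply (P : ProbabilityMeasure ((Fin d → ℤ) × Fin d → ℝ)) (j : ℕ) (δ η : ℝ) :
    (pert P j δ η : Measure ((Fin d → ℤ) × Fin d → ℝ)) =
      (Mj (P : Measure ((Fin d → ℤ) × Fin d → ℝ))).map (kf j δ η) := rfl

lemma shw_meas (x : Fin d → ℤ) : Measurable (shw (d := d) x) :=
  (shw_law (gaussianReal 0 1) x).measurable

lemma pert_stat {P : ProbabilityMeasure ((Fin d → ℤ) × Fin d → ℝ)} {x : Fin d → ℤ}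
    (hP : (P : Measure ((Fin d → ℤ) × Fin d → ℝ)).map (shw x) = P) (j : ℕ) (δ η : ℝ) :
    (pert P j δ η : Measure ((Fin d → ℤ) × Fin d → ℝ)).map (shw x) = pert P j δ η := by
  have hT : MeasurePreserving (Prod.map (shO x) (Prod.map (shw x) (shw x)))
      (Mj (P : Measure ((Fin d → ℤ) × Fin d → ℝ))) (Mj P) :=
    (shO_law x).prod ((⟨shw_meas x, hP⟩ : MeasurePreserving (shw x)
      (P : Measure ((Fin d → ℤ) × Fin d → ℝ)) P).prod (shw_law (gaussianReal 0 1) x))
  have hcomp : shw x ∘ kf (d := d) j δ η =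
      kf j δ η ∘ Prod.map (shO x) (Prod.map (shw x) (shw x)) := by
    funext q e
    have h1 : q.1 (j, e.2) + (((e.1 + x) e.2 : ℤ) : ZMod (sd j)) =
        q.1 (j, e.2) + ((x e.2 : ℤ) : ZMod (sd j)) + ((e.1 e.2 : ℤ) : ZMod (sd j)) := by
      rw [Pi.add_apply]; push_cast; ring
    show wt j δ q.1 (e.1 + x, e.2) * (q.2.1 (e.1 + x, e.2) + η * q.2.2 (e.1 + x, e.2)) =
      wt j δ (shO x q.1) e * (q.2.1 (e.1 + x, e.2) + η * q.2.2 (e.1 + x, e.2))
    congr 1
    unfold wt shO
    simp only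
    rw [h1]
  rw [pert_apply, Measure.map_map (shw_meas x) (kf_meas j δ η), hcomp,
    ← Measure.map_map (kf_meas j δ η) hT.measurable, hT.map_eq]

lemma pert_flip {P : ProbabilityMeasure ((Fin d → ℤ) × Fin d → ℝ)} {b : (Fin d → ℤ) × Fin d}
    (hP : (P : Measure ((Fin d → ℤ) × Fin d → ℝ)).map (fl {b}) = P) (j : ℕ) (δ η : ℝ) :
    (pert P j δ η : Measure ((Fin d → ℤ) × Fin d → ℝ)).map (fl {b}) = pert P j δ η := by
  have hg : MeasurePreserving (fl {b}) (gam d) (gam d) :=
    fl_law (gaussianReal 0 1) (by rw [gaussianReal_map_neg, neg_zero]) {b}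
  have hT : MeasurePreserving (Prod.map (id : Of d → Of d) (Prod.map (fl {b}) (fl {b})))
      (Mj (P : Measure ((Fin d → ℤ) × Fin d → ℝ))) (Mj P) :=
    (MeasurePreserving.id (lam d)).prod ((⟨hg.measurable, hP⟩ : MeasurePreserving (fl {b})
      (P : Measure ((Fin d → ℤ) × Fin d → ℝ)) P).prod hg)
  have hcomp : fl {b} ∘ kf (d := d) j δ η =
      kf j δ η ∘ Prod.map (id : Of d → Of d) (Prod.map (fl {b}) (fl {b})) := by
    classical
    funext q e
    show fl {b} (kf j δ η q) e = wt j δ q.1 e * (fl {b} q.2.1 e + η * fl {b} q.2.2 e)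
    unfold fl
    by_cases h : e ∈ ({b} : Finset ((Fin d → ℤ) × Fin d))
    · simp only [if_pos h]
      unfold kf
      ring
    · simp only [if_neg h]
      rfl
  rw [pert_apply, Measure.map_map hg.measurable (kf_meas j δ η), hcomp,
    ← Measure.map_map (kf_meas j δ η) hT.measurable, hT.map_eq]

/-! ### Convergence -/

lemma Mj_fst (P : Measure ((Fin d → ℤ) × Fin d → ℝ)) [IsProbabilityMeasure P] (j : ℕ)
    (i : Fin d) (a : ZMod (sd j)) :
    Mj P {q | q.1 (j, i) = a} = 1 / (sd j : ENNReal) := by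
  have h1 : MeasurePreserving (Prod.fst : Of d × (((Fin d → ℤ) × Fin d → ℝ) ×
      ((Fin d → ℤ) × Fin d → ℝ)) → Of d) (Mj P) (lam d) := measurePreserving_fst
  have h0 : Measurable fun ω : Of d => ω (j, i) := measurable_pi_apply (j, i)
  have hm : MeasurableSet {ω : Of d | ω (j, i) = a} := by
    have h2 : MeasurableSet ({a} : Set (ZMod (sd j))) := MeasurableSet.of_discrete
    exact h0 h2
  rw [← lam_eq j i a, ← h1.measure_preimage hm.nullMeasurableSet]
  rfl

lemma sd_summable : ∑' j : ℕ, (1 / (sd j : ENNReal)) ≠ ⊤ := by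
  refine ne_top_of_le_ne_top (b := ∑' j : ℕ, (1 / 2 : ENNReal) ^ j) ?_
    (ENNReal.tsum_le_tsum fun j => ?_)
  · rw [ENNReal.tsum_geometric]; simp
  · rw [one_div, one_div, ← ENNReal.inv_pow]
    apply ENNReal.inv_le_inv.2
    unfold sd
    push_cast
    calc (2 : ENNReal) ^ j ≤ 2 * 2 ^ j := le_mul_of_one_le_left (by positivity) (by norm_num)
      _ ≤ 2 * 2 ^ j + 1 := le_self_add

lemma pert_tendsto (P : ProbabilityMeasure ((Fin d → ℤ) × Fin d → ℝ)) (δ : ℕ → ℝ) :
    Tendsto (fun j => pert P j (δ j) (1 / ((j : ℝ) + 1))) atTop (𝓝 P) := by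
  have hae : ∀ᵐ q ∂(Mj (P : Measure ((Fin d → ℤ) × Fin d → ℝ))),
      Tendsto (fun j => kf j (δ j) (1 / ((j : ℝ) + 1)) q) atTop (𝓝 q.2.1) := by
    have h1 : ∀ e : (Fin d → ℤ) × Fin d, ∀ᵐ q ∂(Mj (P : Measure ((Fin d → ℤ) × Fin d → ℝ))),
        ∀ᶠ j in atTop, q ∉ {q | q.1 (j, e.2) = -((e.1 e.2 : ℤ) : ZMod (sd j))} := by
      intro e
      refine ae_eventually_notMem ?_
      simp only [Mj_fst]
      exact sd_summable
    have h2 := ae_all_iff.2 h1
    filter_upwards [h2] with q hq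
    rw [tendsto_pi_nhds]
    intro e
    have h3 : ∀ᶠ j in atTop, kf j (δ j) (1 / ((j : ℝ) + 1)) q e =
        q.2.1 e + 1 / ((j : ℝ) + 1) * q.2.2 e := by
      filter_upwards [hq e] with j hj
      unfold kf wt
      rw [if_neg, one_mul]
      intro hc
      exact hj (eq_neg_of_add_eq_zero_left hc)
    have h4 : Tendsto (fun j : ℕ => q.2.1 e + 1 / ((j : ℝ) + 1) * q.2.2 e) atTop
        (𝓝 (q.2.1 e + 0 * q.2.2 e)) :=
      tendsto_const_nhds.add (tendsto_one_div_add_atTop_nhds_zero_nat.mul_const _)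
    rw [zero_mul, add_zero] at h4
    exact h4.congr' (h3.mono fun j hj => hj.symm)
  rw [ProbabilityMeasure.tendsto_iff_forall_integral_tendsto]
  intro f
  have h5 : MeasurePreserving (fun q : Of d × (((Fin d → ℤ) × Fin d → ℝ) ×
      ((Fin d → ℤ) × Fin d → ℝ)) => q.2.1) (Mj (P : Measure ((Fin d → ℤ) × Fin d → ℝ))) P :=
    (measurePreserving_fst (μ := (P : Measure ((Fin d → ℤ) × Fin d → ℝ)))
      (ν := gam d)).comp (measurePreserving_snd (μ := lam d)
        (ν := (P : Measure ((Fin d → ℤ) × Fin d → ℝ)).prod (gam d)))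
  have h6 : ∫ K, f K ∂(P : Measure ((Fin d → ℤ) × Fin d → ℝ)) =
      ∫ q, f q.2.1 ∂(Mj (P : Measure ((Fin d → ℤ) × Fin d → ℝ))) := by
    rw [← h5.map_eq, integral_map h5.measurable.aemeasurable
      f.continuous.aestronglyMeasurable, h5.map_eq]
  rw [h6]
  have h7 : ∀ j : ℕ, ∫ K, f K ∂(pert P j (δ j) (1 / ((j : ℝ) + 1)) :
      Measure ((Fin d → ℤ) × Fin d → ℝ)) =
      ∫ q, f (kf j (δ j) (1 / ((j : ℝ) + 1)) q)
        ∂(Mj (P : Measure ((Fin d → ℤ) × Fin d → ℝ))) := by
    intro j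
    rw [pert_apply, integral_map (kf_meas _ _ _).aemeasurable
      f.continuous.aestronglyMeasurable]
  simp only [h7]
  refine tendsto_integral_of_dominated_convergence (fun _ => ‖f‖) (fun j => ?_)
    (integrable_const _) (fun j => ?_) ?_
  · exact (f.continuous.measurable.comp (kf_meas _ _ _)).aestronglyMeasurable
  · exact Eventually.of_forall fun q => f.norm_coe_le_norm _
  · filter_upwards [hae] with q hq
    exact (f.continuous.tendsto _).comp hq

end Pool.Agent.U708.EG
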