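import Pool.Agent.U708.EA.Damp

/-!
# Weak ground states in boxes: a closed set of couplings
-/

set_option autoImplicit false

open Finset MeasureTheory ProbabilityTheory Filter Topology

namespace Pool.Agent.U708.EG

open Pool.Agent.R239.EA Pool.Agent.U708.EA

variable {d : ℕ}

/-- no change in `B` decreases the energy -/
def WG (B : Finset (Fin d → ℤ)) (K : (Fin d → ℤ) × Fin d → ℝ) (σ : (Fin d → ℤ) → ℝ) : Prop :=
  (∀ x, σ x = 1 ∨ σ x = -1) ∧ ∀ A : Finset (Fin d → ℤ), A ⊆ B →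
    0 ≤ ∑ᶠ e ∈ dC (A : Set (Fin d → ℤ)), K e * (σ e.1 * σ (nx e))

lemma WG.mono {B B' : Finset (Fin d → ℤ)} (h : B' ⊆ B) {K : (Fin d → ℤ) × Fin d → ℝ}
    {σ : (Fin d → ℤ) → ℝ} (hσ : WG B K σ) : WG B' K σ :=
  ⟨hσ.1, fun A hAB => hσ.2 A (hAB.trans h)⟩

lemma WG.of_GI {B : Finset (Fin d → ℤ)} {K : (Fin d → ℤ) × Fin d → ℝ}
    {σ : (Fin d → ℤ) → ℝ} (hσ : GI B K σ) : WG B K σ := by
  refine ⟨hσ.1, fun A hAB => ?_⟩
  rcases A.eq_empty_or_nonempty with h | h
  · subst h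
    rw [Finset.coe_empty, dC_empty]
    simp
  · exact (hσ.2 A h hAB).le

/-- the bonds with both ends in the box around `c` -/
noncomputable def insC (c : Fin d → ℤ) (n : ℕ) : Finset ((Fin d → ℤ) × Fin d) := by
  classical
  exact (tb c n).filter fun e => e.1 ∈ bx c n ∧ nx e ∈ bx c n

/-- the bonds with exactly one end in the box around `c` -/
noncomputable def crC (c : Fin d → ℤ) (n : ℕ) : Finset ((Fin d → ℤ) × Fin d) := by
  classical
  exact (tb c n).filter fun e => ¬ (e.1 ∈ bx c n ↔ nx e ∈ bx c n)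

lemma mem_insC {c : Fin d → ℤ} {n : ℕ} {e : (Fin d → ℤ) × Fin d} :
    e ∈ insC c n ↔ e.1 ∈ bx c n ∧ nx e ∈ bx c n := by
  classical
  unfold insC
  simp only [Finset.mem_filter, mem_tb]
  tauto

lemma mem_crC {c : Fin d → ℤ} {n : ℕ} {e : (Fin d → ℤ) × Fin d} :
    e ∈ crC c n ↔ ¬ (e.1 ∈ bx c n ↔ nx e ∈ bx c n) := by
  classical
  unfold crC
  simp only [Finset.mem_filter, mem_tb]
  tauto

/-- the bonds which leave the box around `c` are too weak for the box -/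
def IsoC (c : Fin d → ℤ) (n : ℕ) (K : (Fin d → ℤ) × Fin d → ℝ) : Prop :=
  ∀ T1 ∈ (insC c n).powerset, ∀ T2 ∈ (insC c n).powerset, Disjoint T1 T2 →
    (∃ e, e ∈ T1 ∨ e ∈ T2) → ∑ e ∈ crC c n, |K e| < |∑ e ∈ T1, K e - ∑ e ∈ T2, K e|

lemma iso_agreeC {B : Finset (Fin d → ℤ)} {c : Fin d → ℤ} {n : ℕ}
    {K : (Fin d → ℤ) × Fin d → ℝ} {σ τ : (Fin d → ℤ) → ℝ} (hB : bx c n ⊆ B)
    (hσ : WG B K σ) (hτ : WG B K τ) (h : IsoC c n K)
    {e : (Fin d → ℤ) × Fin d} (he : e ∈ insC c n) :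
    e ∉ dC {x | σ x ≠ τ x} := by
  classical
  intro hcon
  set A : Finset (Fin d → ℤ) := (bx c n).filter fun x => σ x ≠ τ x with hA
  have hei := mem_insC.1 he
  have hAmem : ∀ x, x ∈ A ↔ x ∈ bx c n ∧ σ x ≠ τ x := by
    intro x
    rw [hA, Finset.mem_filter]
  have heA : e ∈ dC (A : Set (Fin d → ℤ)) := by
    unfold dC at hcon ⊢
    simp only [Set.mem_ofPred_eq, Finset.mem_coe, hAmem] at hcon ⊢
    tauto
  have hsub : A ⊆ B := (Finset.filter_subset _ _).trans hB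
  have hfin := dC_finite A.finite_toSet
  set F : Finset ((Fin d → ℤ) × Fin d) := hfin.toFinset with hF
  have hFmem : ∀ e, e ∈ F ↔ e ∈ dC (A : Set (Fin d → ℤ)) := fun e => by
    rw [hF, Set.Finite.mem_toFinset]
  have h1 := hσ.2 A hsub
  have h2 := hτ.2 A hsub
  rw [finsum_mem_eq_finite_toFinset_sum _ hfin, ← hF] at h1 h2
  have hcase : ∀ f ∈ F, f ∉ insC c n → f ∈ crC c n := by
    intro f hf hni
    have h3 := (hFmem f).1 hf
    unfold dC at h3
    simp only [Set.mem_ofPred_eq, Finset.mem_coe, hAmem] at h3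
    rw [mem_insC] at hni
    rw [mem_crC]
    tauto
  have hneg : ∀ f ∈ F, f ∈ insC c n → τ f.1 * τ (nx f) = -(σ f.1 * σ (nx f)) := by
    intro f hf hi
    refine prod_neg hσ.1 hτ.1 ?_
    have h3 := (hFmem f).1 hf
    have h4 := mem_insC.1 hi
    unfold dC at h3 ⊢
    simp only [Set.mem_ofPred_eq, Finset.mem_coe, hAmem] at h3 ⊢
    tauto
  have hpm : ∀ (ρ : (Fin d → ℤ) → ℝ), (∀ x, ρ x = 1 ∨ ρ x = -1) →
      ∀ f : (Fin d → ℤ) × Fin d, ρ f.1 * ρ (nx f) = 1 ∨ ρ f.1 * ρ (nx f) = -1 := by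
    intro ρ hρ f
    rcases hρ f.1 with h | h <;> rcases hρ (nx f) with h' | h' <;> rw [h, h'] <;> norm_num
  set X : ℝ := ∑ f ∈ F.filter (fun f => f ∈ insC c n), K f * (σ f.1 * σ (nx f)) with hX
  set Bd : ℝ := ∑ f ∈ crC c n, |K f| with hBd
  have hout : ∀ (ρ : (Fin d → ℤ) → ℝ), (∀ x, ρ x = 1 ∨ ρ x = -1) →
      ∑ f ∈ F.filter (fun f => ¬ f ∈ insC c n), K f * (ρ f.1 * ρ (nx f)) ≤ Bd := by
    intro ρ hρ
    calc ∑ f ∈ F.filter (fun f => ¬ f ∈ insC c n), K f * (ρ f.1 * ρ (nx f))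
        ≤ ∑ f ∈ F.filter (fun f => ¬ f ∈ insC c n), |K f| := by
          refine Finset.sum_le_sum fun f _ => ?_
          rcases hpm ρ hρ f with h | h
          · rw [h, mul_one]; exact le_abs_self _
          · rw [h, mul_neg, mul_one]; exact neg_le_abs _
      _ ≤ Bd := by
          refine Finset.sum_le_sum_of_subset_of_nonneg ?_ fun f _ _ => abs_nonneg _
          intro f hf
          rw [Finset.mem_filter] at hf
          exact hcase f hf.1 hf.2
  have e1 := Finset.sum_filter_add_sum_filter_not F (fun f => f ∈ insC c n)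
    (fun f => K f * (σ f.1 * σ (nx f)))
  have e2 := Finset.sum_filter_add_sum_filter_not F (fun f => f ∈ insC c n)
    (fun f => K f * (τ f.1 * τ (nx f)))
  have e3 : ∑ f ∈ F.filter (fun f => f ∈ insC c n), K f * (τ f.1 * τ (nx f)) = -X := by
    rw [hX, ← Finset.sum_neg_distrib]
    refine Finset.sum_congr rfl fun f hf => ?_
    rw [Finset.mem_filter] at hf
    rw [hneg f hf.1 hf.2, mul_neg]
  have o1 := hout σ hσ.1
  have o2 := hout τ hτ.1
  have hXlt : |X| ≤ Bd := by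
    rw [abs_le]
    constructor
    · linarith
    · linarith
  -- contradiction with the gap
  set D : Finset ((Fin d → ℤ) × Fin d) := F.filter (fun f => f ∈ insC c n) with hD
  have heD : e ∈ D := Finset.mem_filter.2 ⟨(hFmem e).2 heA, he⟩
  have hDsub : D ⊆ insC c n := fun f hf => (Finset.mem_filter.1 hf).2
  have hgap := h (D.filter fun f => σ f.1 * σ (nx f) = 1)
    (Finset.mem_powerset.2 ((Finset.filter_subset _ _).trans hDsub))
    (D.filter fun f => ¬ σ f.1 * σ (nx f) = 1)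
    (Finset.mem_powerset.2 ((Finset.filter_subset _ _).trans hDsub))
    (Finset.disjoint_filter_filter_not _ _ _) ⟨e, by
      by_cases h3 : σ e.1 * σ (nx e) = 1
      · exact Or.inl (Finset.mem_filter.2 ⟨heD, h3⟩)
      · exact Or.inr (Finset.mem_filter.2 ⟨heD, h3⟩)⟩
  have hXeq : X = ∑ f ∈ D.filter (fun f => σ f.1 * σ (nx f) = 1), K f -
      ∑ f ∈ D.filter (fun f => ¬ σ f.1 * σ (nx f) = 1), K f := by
    have h1 := Finset.sum_filter_add_sum_filter_not D (fun f => σ f.1 * σ (nx f) = 1)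
      (fun f => K f * (σ f.1 * σ (nx f)))
    have h2 : ∑ f ∈ D.filter (fun f => σ f.1 * σ (nx f) = 1), K f * (σ f.1 * σ (nx f)) =
        ∑ f ∈ D.filter (fun f => σ f.1 * σ (nx f) = 1), K f :=
      Finset.sum_congr rfl fun f hf => by rw [(Finset.mem_filter.1 hf).2, mul_one]
    have h3 : ∑ f ∈ D.filter (fun f => ¬ σ f.1 * σ (nx f) = 1), K f * (σ f.1 * σ (nx f)) =
        -∑ f ∈ D.filter (fun f => ¬ σ f.1 * σ (nx f) = 1), K f := by
      rw [← Finset.sum_neg_distrib]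
      refine Finset.sum_congr rfl fun f hf => ?_
      rcases hpm σ hσ.1 f with h | h
      · exact absurd h (Finset.mem_filter.1 hf).2
      · rw [h, mul_neg, mul_one]
    rw [hX, ← h1, h2, h3]; ring
  rw [← hXeq] at hgap
  linarith

/-- couplings such that two weak ground states of the box of radius `n` differ at `0` -/
def CC (d n : ℕ) : Set ((Fin d → ℤ) × Fin d → ℝ) :=
  {K | ∃ σ τ : (Fin d → ℤ) → ℝ, WG (bx 0 n) K σ ∧ WG (bx 0 n) K τ ∧
    ∃ i, ((0 : Fin d → ℤ), i) ∈ dC {x | σ x ≠ τ x}}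

lemma CC_anti {m n : ℕ} (h : n ≤ m) : CC d m ⊆ CC d n := by
  rintro K ⟨σ, τ, h1, h2, h3⟩
  have hs : bx (0 : Fin d → ℤ) n ⊆ bx 0 m := bx_sub (by rw [sub_self, nrm_zero]; omega)
  exact ⟨σ, τ, h1.mono hs, h2.mono hs, h3⟩

lemma closed_WG (n : ℕ) (s : ((Fin d → ℤ) → Bool × Bool) → (Fin d → ℤ) → ℝ)
    (hs : ∀ f x, s f x = 1 ∨ s f x = -1) (hc : ∀ x, Continuous fun f => s f x) :
    IsClosed {q : ((Fin d → ℤ) × Fin d → ℝ) × ((Fin d → ℤ) → Bool × Bool) |
      WG (bx 0 n) q.1 (s q.2)} := by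
  have h1 : {q : ((Fin d → ℤ) × Fin d → ℝ) × ((Fin d → ℤ) → Bool × Bool) |
      WG (bx 0 n) q.1 (s q.2)} = ⋂ A ∈ {A : Finset (Fin d → ℤ) | A ⊆ bx 0 n},
      {q | 0 ≤ ∑ e ∈ (dC_finite A.finite_toSet).toFinset, q.1 e * (s q.2 e.1 * s q.2 (nx e))} := by
    ext q
    simp only [Set.mem_iInter, Set.mem_ofPred_eq]
    constructor
    · intro h A hA
      have := h.2 A hA
      rwa [finsum_mem_eq_finite_toFinset_sum _ (dC_finite A.finite_toSet)] at this
    · intro h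
      refine ⟨hs q.2, fun A hA => ?_⟩
      rw [finsum_mem_eq_finite_toFinset_sum _ (dC_finite A.finite_toSet)]
      exact h A hA
  rw [h1]
  refine isClosed_biInter fun A _ => isClosed_le continuous_const ?_
  refine continuous_finsetSum _ fun e _ => ?_
  exact ((continuous_apply e).comp continuous_fst).mul
    (((hc e.1).comp continuous_snd).mul ((hc (nx e)).comp continuous_snd))

lemma closed_CC (n : ℕ) : IsClosed (CC d n) := by
  classical
  have hb : ∀ (g : Bool × Bool → ℝ) (x : Fin d → ℤ),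
      Continuous fun f : (Fin d → ℤ) → Bool × Bool => g (f x) := fun g x =>
    continuous_of_discreteTopology.comp (continuous_apply x)
  have c1 := closed_WG (d := d) n s1 s1_pm (fun x => hb (fun b => if b.1 then -1 else 1) x)
  have c2 := closed_WG (d := d) n s2 s2_pm (fun x => hb (fun b => if b.2 then -1 else 1) x)
  have c3 : IsClosed {f : (Fin d → ℤ) → Bool × Bool |
      ∃ i, ((0 : Fin d → ℤ), i) ∈ dC {x | s1 f x ≠ s2 f x}} := by
    refine closed_of_dep ({0} ∪ Finset.univ.image fun i => u i) ?_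
    rintro f f' hff ⟨i, hi⟩
    refine ⟨i, ?_⟩
    unfold dC nx s1 s2 at hi ⊢
    simp only [Set.mem_ofPred_eq, zero_add] at hi ⊢
    rw [← hff 0 (by simp), ← hff (u i) (by simp)]
    exact hi
  have hZ := (c1.inter c2).inter (c3.preimage
    (continuous_snd : Continuous (Prod.snd : ((Fin d → ℤ) × Fin d → ℝ) ×
      ((Fin d → ℤ) → Bool × Bool) → _)))
  have him := isClosedMap_fst_of_compactSpace (X := (Fin d → ℤ) × Fin d → ℝ)
    (Y := (Fin d → ℤ) → Bool × Bool) _ hZ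
  convert him using 1
  ext K
  constructor
  · rintro ⟨σ, τ, h1, h2, h3⟩
    obtain ⟨f, hf1, hf2⟩ := to_bool σ τ h1.1 h2.1
    refine ⟨(K, f), ⟨⟨?_, ?_⟩, ?_⟩, rfl⟩
    · show WG (bx 0 n) K (s1 f)
      rw [hf1]; exact h1
    · show WG (bx 0 n) K (s2 f)
      rw [hf2]; exact h2
    · show ∃ i, ((0 : Fin d → ℤ), i) ∈ dC {x | s1 f x ≠ s2 f x}
      rw [hf1, hf2]; exact h3
  · rintro ⟨⟨K', f⟩, ⟨⟨h1, h2⟩, h3⟩, rfl⟩
    exact ⟨s1 f, s2 f, h1, h2, h3⟩

/-- uniqueness from the absence of influence at all sites -/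
lemma unique_of (hd : 2 ≤ d) {K : (Fin d → ℤ) × Fin d → ℝ} (hg : Gn K)
    (h : ∀ x : Fin d → ℤ, ∃ n, shw x K ∉ CC d n) :
    ∃ σ, GA K σ ∧ ∀ τ, GA K τ → τ = σ ∨ τ = -σ := by
  obtain ⟨σ, hσ⟩ := exists_GA hd hg
  refine ⟨σ, hσ, fun τ hτ => congruent (hσ 0).1 (hτ 0).1 ?_⟩
  rw [Set.eq_empty_iff_forall_notMem]
  intro e he
  obtain ⟨n, hn⟩ := h e.1
  refine hn ⟨_, _, WG.of_GI (GI_shift (hσ.at e.1 n)), WG.of_GI (GI_shift (hτ.at e.1 n)), e.2, ?_⟩
  unfold dC nx at he ⊢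
  simp only [Set.mem_ofPred_eq, zero_add] at he ⊢
  rw [add_comm (u e.2) e.1]
  exact he

/-- laws which give a closed set a small probability -/
lemma isOpen_lt {X : Type*} [TopologicalSpace X] [MeasurableSpace X] [OpensMeasurableSpace X]
    [HasOuterApproxClosed X] {C : Set X} (hC : IsClosed C) (c : ENNReal) :
    IsOpen {P : ProbabilityMeasure X | (P : Measure X) C < c} := by
  rw [isOpen_iff_mem_nhds]
  intro P hP
  have h1 := ProbabilityMeasure.limsup_measure_closed_le_of_tendsto (L := 𝓝 P) (μ := P)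
    (μs := fun Q => Q) tendsto_id hC
  exact eventually_lt_of_limsup_lt (lt_of_le_of_lt h1 hP)

end Pool.Agent.U708.EG
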